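import Mathlib

set_option autoImplicit false

/-!
# Almost all orbits of the Collatz-like map terminate quickly

For the partial map `g` of the problem: for every `k` and `i ∈ {1, 2}` there are exactly `2 ^ k` residue classes
modulo `3 ^ k` such that `g ^ k (n, i)` is defined if and only if `n` is in one of them. So for all but at most
`2 N ^ (log 2 / log 3)` of the `n < N` the orbit of `(n, i)` terminates, after at most `⌈log_3 N⌉` steps.

The reason: for `n = 3 m + r` the value `(5 m + s, i')` determines and is determined by `m`, also modulo `3 ^ k`,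
and for each state one of the three residues `r` is the halting one.
-/

namespace Pool.Agent.Results.MP_db05cd_nt.FewNonterminating

/-- the partial map `g` (the second component is `1` or `2`); `none` where it is undefined -/
def g (p : ℕ × ℕ) : Option (ℕ × ℕ) :=
  if p.2 = 1 then
    (if p.1 % 3 = 0 then some ((5 * (p.1 / 3) + 1, 1) : ℕ × ℕ)
     else if p.1 % 3 = 2 then some ((5 * (p.1 / 3) + 4, 2) : ℕ × ℕ)
     else none)
  else
    (if p.1 % 3 = 0 then some ((5 * (p.1 / 3) + 1, 2) : ℕ × ℕ)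
     else if p.1 % 3 = 1 then some ((5 * (p.1 / 3) + 3, 1) : ℕ × ℕ)
     else none)

/-- `g ^ k (p)`, `none` if it is undefined -/
def iter (k : ℕ) (p : ℕ × ℕ) : Option (ℕ × ℕ) :=
  (fun o : Option (ℕ × ℕ) => Option.bind o g)^[k] (some p)

theorem iter_none (k : ℕ) : (fun o : Option (ℕ × ℕ) => Option.bind o g)^[k] none = none := by
  induction k with
  | zero => rfl
  | succ k ih => rw [Function.iterate_succ_apply]; exact ih

theorem iter_zero (p : ℕ × ℕ) : iter 0 p ≠ none := by
  simp [iter]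

theorem iter_succ_none {k : ℕ} {p : ℕ × ℕ} (h : g p = none) : iter (k + 1) p = none := by
  unfold iter
  rw [Function.iterate_succ_apply]
  show (fun o : Option (ℕ × ℕ) => Option.bind o g)^[k] (g p) = none
  rw [h, iter_none]

theorem iter_succ_some {k : ℕ} {p q : ℕ × ℕ} (h : g p = some q) : iter (k + 1) p = iter k q := by
  unfold iter
  rw [Function.iterate_succ_apply]
  show (fun o : Option (ℕ × ℕ) => Option.bind o g)^[k] (g p) = _
  rw [h]

/-- the condition that `k + 1` steps are possible -/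
theorem succ_one (k n : ℕ) : iter (k + 1) (n, 1) ≠ none ↔
    (n % 3 = 0 ∧ iter k (5 * (n / 3) + 1, 1) ≠ none) ∨
      (n % 3 = 2 ∧ iter k (5 * (n / 3) + 4, 2) ≠ none) := by
  have h3 : n % 3 = 0 ∨ n % 3 = 1 ∨ n % 3 = 2 := by omega
  rcases h3 with h | h | h
  · have : g (n, 1) = some (5 * (n / 3) + 1, 1) := by simp [g, h]
    rw [iter_succ_some this]
    simp [h]
  · have : g (n, 1) = none := by simp [g, h]
    rw [iter_succ_none this]
    simp [h]
  · have : g (n, 1) = some (5 * (n / 3) + 4, 2) := by simp [g, h]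
    rw [iter_succ_some this]
    simp [h]

theorem succ_two (k n : ℕ) : iter (k + 1) (n, 2) ≠ none ↔
    (n % 3 = 0 ∧ iter k (5 * (n / 3) + 1, 2) ≠ none) ∨
      (n % 3 = 1 ∧ iter k (5 * (n / 3) + 3, 1) ≠ none) := by
  have h3 : n % 3 = 0 ∨ n % 3 = 1 ∨ n % 3 = 2 := by omega
  rcases h3 with h | h | h
  · have : g (n, 2) = some (5 * (n / 3) + 1, 2) := by simp [g, h]
    rw [iter_succ_some this]
    simp [h]
  · have : g (n, 2) = some (5 * (n / 3) + 3, 1) := by simp [g, h]
    rw [iter_succ_some this]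
    simp [h]
  · have : g (n, 2) = none := by simp [g, h]
    rw [iter_succ_none this]
    simp [h]

/-- `n mod 3 ^ (k + 1)` and `n mod 3`, `n / 3 mod 3 ^ k` -/
theorem mod_succ (k n : ℕ) : n % 3 ^ (k + 1) % 3 = n % 3 ∧ n % 3 ^ (k + 1) / 3 = n / 3 % 3 ^ k := by
  constructor
  · exact Nat.mod_mod_of_dvd _ (dvd_pow_self 3 (by omega))
  · rw [pow_succ', Nat.mod_mul_right_div_self]

/-- whether `k` steps are possible depends only on `n mod 3 ^ k` -/
theorem periodic (k : ℕ) : ∀ i, (i = 1 ∨ i = 2) → ∀ n n' : ℕ, n ≡ n' [MOD 3 ^ k] →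
    (iter k (n, i) ≠ none ↔ iter k (n', i) ≠ none) := by
  induction k with
  | zero => intro i _ n n' _; simp [iter]
  | succ k ih =>
    intro i hi n n' h
    have a1 := (mod_succ k n)
    have a2 := (mod_succ k n')
    have h0 : n % 3 ^ (k + 1) = n' % 3 ^ (k + 1) := h
    rw [h0] at a1
    have h1 : n % 3 = n' % 3 := by rw [← a1.1, a2.1]
    have h2 : n / 3 ≡ n' / 3 [MOD 3 ^ k] := by
      show n / 3 % 3 ^ k = n' / 3 % 3 ^ k
      rw [← a1.2, a2.2]
    have h3 : ∀ s, 5 * (n / 3) + s ≡ 5 * (n' / 3) + s [MOD 3 ^ k] := fun s =>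
      (h2.mul_left 5).add_right s
    rcases hi with rfl | rfl
    · rw [succ_one, succ_one, h1, ih 1 (Or.inl rfl) _ _ (h3 1), ih 2 (Or.inr rfl) _ _ (h3 4)]
    · rw [succ_two, succ_two, h1, ih 2 (Or.inr rfl) _ _ (h3 1), ih 1 (Or.inl rfl) _ _ (h3 3)]

/-- the residues modulo `3 ^ k` for which `k` steps are possible -/
def R (k i : ℕ) : Finset ℕ := (Finset.range (3 ^ k)).filter fun n => iter k (n, i) ≠ none

/-- one residue class modulo `3` contributes as many residues as there are in the next state -/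
theorem card_class (k i r s : ℕ) (hi : i = 1 ∨ i = 2) (hr : r < 3) :
    ((Finset.range (3 ^ (k + 1))).filter fun n =>
      n % 3 = r ∧ iter k (5 * (n / 3) + s, i) ≠ none).card = (R k i).card := by
  have hq : 0 < 3 ^ k := by positivity
  have hcop : Nat.Coprime (3 ^ k) 5 := Nat.Coprime.pow_left k (by norm_num)
  refine Finset.card_bij (fun n _ => (5 * (n / 3) + s) % 3 ^ k) ?_ ?_ ?_
  · intro n hn
    rw [Finset.mem_filter] at hn
    rw [R, Finset.mem_filter, Finset.mem_range]
    refine ⟨Nat.mod_lt _ hq, ?_⟩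
    exact (periodic k i hi _ _ (Nat.mod_modEq _ _)).2 hn.2.2
  · intro a ha b hb hab
    rw [Finset.mem_filter, Finset.mem_range, pow_succ'] at ha hb
    have h1 : 5 * (a / 3) + s ≡ 5 * (b / 3) + s [MOD 3 ^ k] := hab
    have h2 : 5 * (a / 3) ≡ 5 * (b / 3) [MOD 3 ^ k] := Nat.ModEq.add_right_cancel' s h1
    have h3 : a / 3 ≡ b / 3 [MOD 3 ^ k] := Nat.ModEq.cancel_left_of_coprime hcop h2
    have h4 : a / 3 < 3 ^ k := by omega
    have h5 : b / 3 < 3 ^ k := by omega
    have h6 : a / 3 = b / 3 := Nat.ModEq.eq_of_lt_of_lt h3 h4 h5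
    omega
  · intro t ht
    rw [R, Finset.mem_filter, Finset.mem_range] at ht
    obtain ⟨m, hm⟩ : ∃ m, 5 * m + s ≡ t [MOD 3 ^ k] := by
      obtain ⟨u, hu⟩ : ∃ u, 5 * u ≡ 1 [MOD 3 ^ k] := by
        rcases Nat.lt_or_ge 1 (3 ^ k) with h | h
        · obtain ⟨u, -, hu⟩ := Nat.exists_mul_mod_eq_one_of_coprime hcop.symm h
          exact ⟨u, by rw [Nat.ModEq, hu, Nat.mod_eq_of_lt h]⟩
        · have : 3 ^ k = 1 := by omega
          rw [this]
          exact ⟨0, Nat.modEq_one⟩
      refine ⟨u * (t + (3 ^ k - 1) * s), ?_⟩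
      have h1 : 5 * (u * (t + (3 ^ k - 1) * s)) ≡ 1 * (t + (3 ^ k - 1) * s) [MOD 3 ^ k] := by
        rw [← mul_assoc]
        exact hu.mul_right _
      have h2 : 1 * (t + (3 ^ k - 1) * s) + s = t + 3 ^ k * s := by
        obtain ⟨q, hq'⟩ : ∃ q, 3 ^ k = q + 1 := ⟨3 ^ k - 1, by omega⟩
        rw [hq', Nat.add_sub_cancel]
        ring
      have h3 := h1.add_right s
      rw [h2] at h3
      refine h3.trans ?_
      show (t + 3 ^ k * s) % 3 ^ k = t % 3 ^ k
      rw [Nat.add_mul_mod_self_left]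
    have hm3 : (3 * (m % 3 ^ k) + r) / 3 = m % 3 ^ k := by omega
    have hm4 : 5 * (m % 3 ^ k) + s ≡ t [MOD 3 ^ k] :=
      (((Nat.mod_modEq m (3 ^ k)).mul_left 5).add_right s).trans hm
    refine ⟨3 * (m % 3 ^ k) + r, ?_, ?_⟩
    · rw [Finset.mem_filter, Finset.mem_range, hm3]
      have h5 : m % 3 ^ k < 3 ^ k := Nat.mod_lt _ hq
      refine ⟨by rw [pow_succ']; omega, by omega, ?_⟩
      exact (periodic k i hi _ _ hm4).2 ht.2
    · show (5 * ((3 * (m % 3 ^ k) + r) / 3) + s) % 3 ^ k = t
      rw [hm3]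
      have : (5 * (m % 3 ^ k) + s) % 3 ^ k = t % 3 ^ k := hm4
      rw [this, Nat.mod_eq_of_lt ht.1]

theorem card_R (k : ℕ) : ∀ i, (i = 1 ∨ i = 2) → (R k i).card = 2 ^ k := by
  induction k with
  | zero =>
    intro i _
    have : R 0 i = {0} := by
      ext n
      simp [R, iter]
    rw [this]
    rfl
  | succ k ih =>
    intro i hi
    have h1 := ih 1 (Or.inl rfl)
    have h2 := ih 2 (Or.inr rfl)
    rcases hi with rfl | rfl
    · have e : R (k + 1) 1 =
          ((Finset.range (3 ^ (k + 1))).filter fun n =>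
            n % 3 = 0 ∧ iter k (5 * (n / 3) + 1, 1) ≠ none) ∪
          ((Finset.range (3 ^ (k + 1))).filter fun n =>
            n % 3 = 2 ∧ iter k (5 * (n / 3) + 4, 2) ≠ none) := by
        rw [← Finset.filter_or]
        exact Finset.filter_congr fun n _ => succ_one k n
      rw [e, Finset.card_union_of_disjoint, card_class k 1 0 1 (Or.inl rfl) (by norm_num),
        card_class k 2 2 4 (Or.inr rfl) (by norm_num), h1, h2, pow_succ]
      · ring
      · rw [Finset.disjoint_filter]
        intro n _ h h'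
        omega
    · have e : R (k + 1) 2 =
          ((Finset.range (3 ^ (k + 1))).filter fun n =>
            n % 3 = 0 ∧ iter k (5 * (n / 3) + 1, 2) ≠ none) ∪
          ((Finset.range (3 ^ (k + 1))).filter fun n =>
            n % 3 = 1 ∧ iter k (5 * (n / 3) + 3, 1) ≠ none) := by
        rw [← Finset.filter_or]
        exact Finset.filter_congr fun n _ => succ_two k n
      rw [e, Finset.card_union_of_disjoint, card_class k 2 0 1 (Or.inr rfl) (by norm_num),
        card_class k 1 1 3 (Or.inl rfl) (by norm_num), h1, h2, pow_succ]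
      · ring
      · rw [Finset.disjoint_filter]
        intro n _ h h'
        omega

/-- **Almost all orbits terminate quickly.** For `i = 1, 2`: for every `k` there is a set of exactly
`2 ^ k` residues modulo `3 ^ k` such that `g ^ k (n, i)` is defined if and only if `n mod 3 ^ k` is one
of them. For all `N ≥ 1` there are at most `2 N ^ (log 2 / log 3)` integers `0 ≤ n < N` for which
`g ^ k (n, i)` is defined for `k = ⌈log_3 N⌉`; in particular the orbits of all other `(n, i)`, `n < N`,
terminate. -/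
theorem result (i : ℕ) (hi : i = 1 ∨ i = 2) :
    (∀ k : ℕ, ∃ S ⊆ Finset.range (3 ^ k), S.card = 2 ^ k ∧
      ∀ n : ℕ, iter k (n, i) ≠ none ↔ n % 3 ^ k ∈ S) ∧
    ∀ N : ℕ, 1 ≤ N →
      (((Finset.range N).filter fun n => iter (Nat.clog 3 N) (n, i) ≠ none).card : ℝ) ≤
        2 * (N : ℝ) ^ (Real.log 2 / Real.log 3) := by
  refine ⟨fun k => ⟨R k i, Finset.filter_subset _ _, card_R k i hi, fun n => ?_⟩, fun N hN => ?_⟩
  · rw [R, Finset.mem_filter, Finset.mem_range]
    rw [← periodic k i hi _ _ (Nat.mod_modEq n (3 ^ k))]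
    have : n % 3 ^ k < 3 ^ k := Nat.mod_lt _ (by positivity)
    simp [this]
  · obtain ⟨k, hk⟩ : ∃ k, k = Nat.clog 3 N := ⟨_, rfl⟩
    rw [← hk]
    have h1 : N ≤ 3 ^ k := by rw [hk]; exact Nat.le_pow_clog (by norm_num) N
    have h2 : ((Finset.range N).filter fun n => iter k (n, i) ≠ none).card ≤ 2 ^ k := by
      rw [← card_R k i hi]
      refine Finset.card_le_card ?_
      intro n hn
      rw [Finset.mem_filter, Finset.mem_range] at hn
      rw [R, Finset.mem_filter, Finset.mem_range]
      exact ⟨by omega, hn.2⟩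
    have h3 : (((Finset.range N).filter fun n => iter k (n, i) ≠ none).card : ℝ) ≤ 2 ^ k := by
      exact_mod_cast h2
    refine h3.trans ?_
    have hl3 : 0 < Real.log 3 := Real.log_pos (by norm_num)
    have hl2 : 0 < Real.log 2 := Real.log_pos (by norm_num)
    have hN1 : (1 : ℝ) ≤ N := by exact_mod_cast hN
    have hpow : ∀ j : ℕ, ((3 : ℝ) ^ j) ^ (Real.log 2 / Real.log 3) = 2 ^ j := by
      intro j
      rw [← Real.rpow_natCast, ← Real.rpow_mul (by norm_num), mul_comm, Real.rpow_mul (by norm_num),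
        Real.rpow_natCast]
      congr 1
      rw [Real.rpow_def_of_pos (by norm_num), mul_div_cancel₀ _ hl3.ne', Real.exp_log (by norm_num)]
    rcases Nat.eq_zero_or_pos k with h0 | h0
    · rw [h0, pow_zero]
      have := Real.one_le_rpow hN1 (by positivity : 0 ≤ Real.log 2 / Real.log 3)
      linarith
    · obtain ⟨j, rfl⟩ : ∃ j, k = j + 1 := ⟨k - 1, by omega⟩
      have h4 : 3 ^ j < N := by
        by_contra hlt
        have := Nat.clog_le_of_le_pow (b := 3) (not_lt.1 hlt)
        omega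
      have h5 : ((3 : ℝ) ^ j) ≤ N := by exact_mod_cast h4.le
      have h6 := Real.rpow_le_rpow (by positivity) h5
        (by positivity : 0 ≤ Real.log 2 / Real.log 3)
      rw [hpow] at h6
      rw [pow_succ]
      linarith

end Pool.Agent.Results.MP_db05cd_nt.FewNonterminating
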