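import Mathlib

set_option autoImplicit false

/-!
# Repetitions in the itineraries of the Collatz-like map

The itinerary of an orbit `(x 0, s 0), (x 1, s 1), …` of the partial map `g` of the problem is the sequence of the
pairs `(x j mod 3, s j)`. If the blocks of length `L` of the itinerary which begin at the places `J` and `J + p`,
`p ≥ 1`, are equal then `3 ^ (J + p + L) < 5 ^ (J + p) (x 0 + 2)`, so `L < 0.465 (J + p) + log_3 (x 0 + 2)`. In
particular the itinerary of an orbit which does not terminate is not eventually periodic.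

The reason: equal blocks of length `L` mean that `x (J + p)` and `x J` are congruent modulo `3 ^ L`, and the
orbit is strictly increasing and grows at most by the factor `5 / 3`.
-/

namespace Pool.Agent.Results.MP_db05cd_nt.FewRepetitions

/-- the partial map `g` (the second component is `1` or `2`); `none` where it is undefined -/
def g (p : ℕ × ℕ) : Option (ℕ × ℕ) :=
  if p.2 = 1 then
    (if p.1 % 3 = 0 then some ((5 * (p.1 / 3) + 1, 1) : ℕ × ℕ)
     else if p.1 % 3 = 2 then some ((5 * (p.1 / 3) + 4, 2) : ℕ × ℕ)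
     else none)
  else
    (if p.1 % 3 = 0 then some ((5 * (p.1 / 3) + 1, 2) : ℕ × ℕ)
     else if p.1 % 3 = 1 then some ((5 * (p.1 / 3) + 3, 1) : ℕ × ℕ)
     else none)

/-- `x, s` is an orbit of `g` of length `K`: `(x j, s j)` is mapped to `(x (j + 1), s (j + 1))` for all
`j < K`, and `s 0` is `1` or `2` -/
def IsOrbit (K : ℕ) (x s : ℕ → ℕ) : Prop :=
  (s 0 = 1 ∨ s 0 = 2) ∧ ∀ j, j < K → g (x j, s j) = some (x (j + 1), s (j + 1))

/-- the summand in `3 x' = 5 x + c` -/
def c (r s : ℕ) : ℕ := if r = 0 then 3 else if s = 1 then 2 else 4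

theorem step {x s y t : ℕ} (hs : s = 1 ∨ s = 2) (h : g (x, s) = some (y, t)) :
    (t = 1 ∨ t = 2) ∧ 3 * y = 5 * x + c (x % 3) s := by
  have h3 : x % 3 = 0 ∨ x % 3 = 1 ∨ x % 3 = 2 := by omega
  rcases hs with rfl | rfl <;> rcases h3 with h0 | h0 | h0 <;>
    simp [g, h0] at h <;> simp [c, h0] <;> omega

theorem c_le (r s : ℕ) : 2 ≤ c r s ∧ c r s ≤ 4 := by
  unfold c
  split_ifs <;> omega

theorem state {K : ℕ} {x s : ℕ → ℕ} (h : IsOrbit K x s) : ∀ j, j ≤ K → s j = 1 ∨ s j = 2 := by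
  intro j
  induction j with
  | zero => intro _; exact h.1
  | succ j ih =>
    intro hj
    exact (step (ih (by omega)) (h.2 j (by omega))).1

theorem eqn {K : ℕ} {x s : ℕ → ℕ} (h : IsOrbit K x s) (j : ℕ) (hj : j < K) :
    3 * x (j + 1) = 5 * x j + c (x j % 3) (s j) :=
  (step (state h j hj.le) (h.2 j hj)).2

theorem mono {K : ℕ} {x s : ℕ → ℕ} (h : IsOrbit K x s) (J : ℕ) :
    ∀ p, J + p + 1 ≤ K → x J < x (J + p + 1) := by
  intro p
  induction p with
  | zero =>
    intro hK
    have h1 := eqn h J (by omega)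
    have h2 := c_le (x J % 3) (s J)
    simp only [Nat.add_zero]
    omega
  | succ p ih =>
    intro hK
    have h0 := ih (by omega)
    have h1 := eqn h (J + p + 1) (by omega)
    have h2 := c_le (x (J + p + 1) % 3) (s (J + p + 1))
    have h3 : J + (p + 1) + 1 = J + p + 1 + 1 := by ring
    rw [h3]
    omega

theorem growth {K : ℕ} {x s : ℕ → ℕ} (h : IsOrbit K x s) :
    ∀ j, j ≤ K → 3 ^ j * (x j + 2) ≤ 5 ^ j * (x 0 + 2) := by
  intro j
  induction j with
  | zero => intro _; simp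
  | succ j ih =>
    intro hj
    have h0 := ih (by omega)
    have h1 := eqn h j (by omega)
    have h2 := c_le (x j % 3) (s j)
    have h4 : 3 * (x (j + 1) + 2) ≤ 5 * (x j + 2) := by omega
    calc 3 ^ (j + 1) * (x (j + 1) + 2) = 3 ^ j * (3 * (x (j + 1) + 2)) := by ring
      _ ≤ 3 ^ j * (5 * (x j + 2)) := Nat.mul_le_mul_left _ h4
      _ = 5 * (3 ^ j * (x j + 2)) := by ring
      _ ≤ 5 * (5 ^ j * (x 0 + 2)) := Nat.mul_le_mul_left _ h0
      _ = 5 ^ (j + 1) * (x 0 + 2) := by ring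

/-- equal blocks give a congruence -/
theorem congr_of_eq {K : ℕ} {x s : ℕ → ℕ} (h : IsOrbit K x s) (p L : ℕ) : ∀ J, J + p + L ≤ K →
    (∀ l, l < L → x (J + p + l) % 3 = x (J + l) % 3 ∧ s (J + p + l) = s (J + l)) →
    (3 : ℤ) ^ L ∣ (x (J + p) : ℤ) - x J := by
  induction L with
  | zero => intro J _ _; simp
  | succ L ih =>
    intro J hK hl
    have h1 := ih (J + 1) (by omega) (fun l hlL => by
      have := hl (l + 1) (by omega)
      have e1 : J + 1 + p + l = J + p + (l + 1) := by ring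
      have e2 : J + 1 + l = J + (l + 1) := by ring
      rw [e1, e2]
      exact this)
    have e3 : J + 1 + p = J + p + 1 := by ring
    rw [e3] at h1
    obtain ⟨h2, h3⟩ := hl 0 (by omega)
    simp only [Nat.add_zero] at h2 h3
    have h4 := eqn h J (by omega)
    have h5 := eqn h (J + p) (by omega)
    rw [h2, h3] at h5
    obtain ⟨z, hz⟩ := h1
    have h6 : (3 : ℤ) ^ (L + 1) ∣ 5 * ((x (J + p) : ℤ) - x J) := by
      refine ⟨z, ?_⟩
      have h4' : (3 : ℤ) * x (J + 1) = 5 * x J + c (x J % 3) (s J) := by exact_mod_cast h4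
      have h5' : (3 : ℤ) * x (J + p + 1) = 5 * x (J + p) + c (x J % 3) (s J) := by exact_mod_cast h5
      have : 5 * ((x (J + p) : ℤ) - x J) = 3 * ((x (J + p + 1) : ℤ) - x (J + 1)) := by linarith
      rw [this, hz]
      ring
    have h7 : IsCoprime ((3 : ℤ) ^ (L + 1)) 5 :=
      IsCoprime.pow_left (by norm_num : IsCoprime (3 : ℤ) 5)
    exact h7.dvd_of_dvd_mul_left h6

/-- **Repetitions in itineraries.** Let `(x j, s j)`, `0 ≤ j ≤ K`, be an orbit of `g`. If the blocks of
length `L` of its itinerary `(x j mod 3, s j)` which begin at the places `J` and `J + p` are equal,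
`p ≥ 1`, `J + p + L ≤ K`, then `3 ^ (J + p + L) < 5 ^ (J + p) (x 0 + 2)`. In particular the itinerary
of an infinite orbit is not eventually periodic. -/
theorem result :
    (∀ (K : ℕ) (x s : ℕ → ℕ), IsOrbit K x s → ∀ J p L : ℕ, 1 ≤ p → J + p + L ≤ K →
      (∀ l, l < L → x (J + p + l) % 3 = x (J + l) % 3 ∧ s (J + p + l) = s (J + l)) →
      3 ^ (J + p + L) < 5 ^ (J + p) * (x 0 + 2)) ∧
    ∀ x s : ℕ → ℕ, (∀ K, IsOrbit K x s) → ∀ J p : ℕ, 1 ≤ p →
      ∃ j, J ≤ j ∧ ¬ (x (j + p) % 3 = x j % 3 ∧ s (j + p) = s j) := by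
  have main : ∀ (K : ℕ) (x s : ℕ → ℕ), IsOrbit K x s → ∀ J p L : ℕ, 1 ≤ p → J + p + L ≤ K →
      (∀ l, l < L → x (J + p + l) % 3 = x (J + l) % 3 ∧ s (J + p + l) = s (J + l)) →
      3 ^ (J + p + L) < 5 ^ (J + p) * (x 0 + 2) := by
    intro K x s h J p L hp hK hl
    have h1 := congr_of_eq h p L J hK hl
    obtain ⟨q, rfl⟩ : ∃ q, p = q + 1 := ⟨p - 1, by omega⟩
    have h2 := mono h J q (by omega)
    have h3 := growth h (J + (q + 1)) (by omega)
    have h4 : (3 : ℤ) ^ L ≤ (x (J + (q + 1)) : ℤ) - x J := by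
      refine Int.le_of_dvd ?_ h1
      have : x J < x (J + (q + 1)) := h2
      omega
    have h5 : 3 ^ L < x (J + (q + 1)) + 2 := by
      have : (3 : ℤ) ^ L < x (J + (q + 1)) + 2 := by omega
      exact_mod_cast this
    calc 3 ^ (J + (q + 1) + L) = 3 ^ (J + (q + 1)) * 3 ^ L := by rw [pow_add]
      _ < 3 ^ (J + (q + 1)) * (x (J + (q + 1)) + 2) :=
          Nat.mul_lt_mul_of_pos_left h5 (by positivity)
      _ ≤ _ := h3
  refine ⟨main, ?_⟩
  intro x s h J p hp
  by_contra hcon
  push Not at hcon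
  obtain ⟨L, hL⟩ : ∃ L : ℕ, 5 ^ (J + p) * (x 0 + 2) < 3 ^ L := by
    exact pow_unbounded_of_one_lt _ (by norm_num)
  have h1 := main (J + p + L) x s (h _) J p L hp le_rfl (fun l _ => by
    have := hcon (J + l) (by omega)
    have e : J + l + p = J + p + l := by ring
    rw [e] at this
    by_contra hne
    exact absurd (this) (by tauto))
  have h2 : 3 ^ L ≤ 3 ^ (J + p + L) := Nat.pow_le_pow_right (by norm_num) (by omega)
  omega

end Pool.Agent.Results.MP_db05cd_nt.FewRepetitions
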